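import Pool.Agent.MP_5c28a4_al.H68S.Spec

set_option autoImplicit false

namespace Pool.Agent.MP_5c28a4_al.H89S.StrA

open scoped commutatorElement
open StA

namespace StrTa

variable {G : Type} [Group G]

/-- the elements of an abelian subgroup that are killed by `M` -/
def tor (B : Subgroup G) (h : Cm B B) (M : ℕ) : Subgroup G where
  carrier := {y | y ∈ B ∧ y ^ M = 1}
  one_mem' := ⟨B.one_mem, one_pow M⟩
  mul_mem' := fun {a b} ha hb => ⟨B.mul_mem ha.1 hb.1, by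
    rw [Commute.mul_pow (h a ha.1 b hb.1), ha.2, hb.2, one_mul]⟩
  inv_mem' := fun {a} ha => ⟨B.inv_mem ha.1, by rw [inv_pow, ha.2, inv_one]⟩

lemma mk_one {Y : Subgroup G} [Y.Normal] {x : G} : QuotientGroup.mk' Y x = 1 ↔ x ∈ Y :=
  QuotientGroup.eq_one_iff x

lemma map_normal (X Y : Subgroup G) [hX : X.Normal] [Y.Normal] :
    (X.map (QuotientGroup.mk' Y)).Normal := hX.map _ (QuotientGroup.mk'_surjective Y)

lemma cm_map {X D Y : Subgroup G} [Y.Normal] (h : ⁅X, D⁆ ≤ Y) :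
    Cm (X.map (QuotientGroup.mk' Y)) (D.map (QuotientGroup.mk' Y)) :=
  cm_iff.2 (by rw [← Subgroup.map_commutator]; exact (le_iff_map_mk Y).2 h)

/-- abelian sections -/
lemma abel {X D Y : Subgroup G} [X.Normal] [Y.Normal] {M : ℕ} (h : ⁅X, X⁆ ≤ Y)
    (hM : ∀ x ∈ X, ∀ d ∈ D, ⁅x ^ M, d⁆ ∈ Y) : ∀ y ∈ ⁅X, D⁆, y ^ M ∈ Y := by
  have := map_normal X Y
  have h1 : ⁅X, D⁆ ≤ (tor _ (cm_map h) M).comap (QuotientGroup.mk' Y) :=
    Subgroup.commutator_le.2 fun x hx d hd =>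
      ⟨Subgroup.mem_map_of_mem _ (comm_mem_left hx d), by
        rw [map_commutatorElement, ← cm_pow (cm_map h) (Subgroup.mem_map_of_mem _ hx), ← map_pow,
          ← map_commutatorElement, mk_one]
        exact hM x hx d hd⟩
  intro y hy
  rw [← mk_one, map_pow]
  exact (h1 hy).2

/-- sections of class two -/
lemma two {X Y : Subgroup G} [Y.Normal] {M : ℕ} (h : ⁅⁅X, X⁆, X⁆ ≤ Y)
    (hM : ∀ x ∈ X, ∀ d ∈ X, ⁅x ^ M, d⁆ ∈ Y) : ∀ y ∈ ⁅X, X⁆, y ^ M ∈ Y := by
  have hc := cm_map h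
  have h1 : ⁅X, X⁆ ≤ (tor _ (cm_mono hc le_rfl
      (Subgroup.map_mono X.commutator_le_self)) M).comap (QuotientGroup.mk' Y) :=
    Subgroup.commutator_le.2 fun x hx d hd =>
      ⟨Subgroup.mem_map_of_mem _ (Subgroup.commutator_mem_commutator hx hd), by
        rw [map_commutatorElement, ← Ut3A.comm_pow_left hc (Subgroup.map_commutator _ _ _).ge
          (Subgroup.mem_map_of_mem _ hx) (Subgroup.mem_map_of_mem _ hd), ← map_pow,
          ← map_commutatorElement, mk_one]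
        exact hM x hx d hd⟩
  intro y hy
  rw [← mk_one, map_pow]
  exact (h1 hy).2

lemma sh1 (hG : Group.IsSolvable G) {D : Subgroup G} [D.Normal] {M : ℕ} (hM : 0 < M)
    (X : Subgroup G) (hX : X.Normal) (hD : X ≤ D) (h : ∀ x ∈ X, ∀ d ∈ D, ⁅x ^ M, d⁆ = 1) :
    ∃ n, 0 < n ∧ ∀ y ∈ ⁅X, D⁆, y ^ n = 1 := by
  obtain ⟨N, hN⟩ := hG.solvable
  have key : ∀ e i, i + e = N → ∀ X : Subgroup G, X.Normal → X ≤ D → X ≤ derivedSeries G i →
      (∀ x ∈ X, ∀ d ∈ D, ⁅x ^ M, d⁆ = 1) → ∃ n, 0 < n ∧ ∀ y ∈ ⁅X, D⁆, y ^ n = 1 := by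
    intro e
    induction e with
    | zero =>
      rintro i rfl X _ _ h1 _
      rw [add_zero] at hN
      rw [hN, le_bot_iff] at h1
      exact ⟨1, one_pos, fun y hy => by simpa [h1] using hy⟩
    | succ e ih =>
      intro i hi X _ h0 h1 h2
      obtain ⟨n, n0, hn⟩ := ih (i + 1) (by omega) ⁅X, X⁆ inferInstance
        (X.commutator_le_self.trans h0) (Subgroup.commutator_mono h1 h1)
        fun x hx => h2 x (X.commutator_le_self hx)
      refine ⟨M * M * n, by positivity, fun y hy => ?_⟩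
      rw [pow_mul, pow_mul]
      refine hn _ (two (Subgroup.commutator_mono le_rfl h0) (fun x hx d hd => ?_) _
        (abel le_rfl (fun x hx d hd => ?_) y hy))
      · rw [h2 x hx d (h0 hd)]; exact one_mem _
      · rw [h2 x hx d hd]; exact one_mem _
  exact key N 0 (zero_add N) X hX hD le_top h

lemma nk0 {B K : Subgroup G} [B.Normal] [K.Normal] (h : Cm B B) (M i : ℕ) :
    itc (pw B M) K i ≤ pw (itc B K i) M := by
  induction i with
  | zero => exact le_rfl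
  | succ i ih =>
    refine Subgroup.commutator_le.2 fun x hx k hk => ?_
    obtain ⟨y, hy, rfl⟩ := mem_pw (cm_mono h (itc_le B K i) (itc_le B K i)) (ih hx)
    rw [cm_pow h (itc_le B K i hy)]
    exact pow_mem_pw (Subgroup.commutator_mem_commutator hy hk) M

end StrTa

open StrTa

theorem nk : SNk := by
  intro N _ K B Y c M _ _ _ hBK hB hM
  have := map_normal B Y
  have := map_normal K Y
  rw [← le_iff_map_mk, itc_map, pw_map, eq_bot_iff]
  refine (nk0 (cm_map hB) M c).trans (pw_le_iff.2 fun y hy => ?_)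
  have h1 := itc_mono (Subgroup.map_mono (f := QuotientGroup.mk' Y) hBK) le_rfl c hy
  have h2 := itc_lcs (K.map (QuotientGroup.mk' Y)) 0 c
  rw [zero_add, Subgroup.lowerCentralSeries_zero] at h2
  rw [h2, ← Subgroup.map_lowerCentralSeries] at h1
  obtain ⟨x, hx, rfl⟩ := h1
  rw [← map_pow, hM x hx, map_one]
  exact one_mem _

theorem ta : SNk → SAlg → STa := by
  intro h1 h2 Λ u W hW hU N A _ _ ρ hN hS K B c hK ⟨M, M0, hM⟩ hB hc hBK
  have hX := pw_normal B M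
  have hc' : Cm (pw B M) (pw B M) := cm_mono hc (pw_le _ _) (pw_le _ _)
  obtain ⟨m, n, D, S, m0, d1, d2, -, -, h⟩ := h2 N hN K ⊤ (pw B M) ⊥ c W hK inferInstance
    inferInstance hX inferInstance (cm_iff.1 hc').le
    (h1 N K B ⊥ c M hK.1 hB inferInstance hBK (cm_iff.1 hc).le hM) hW
  refine ⟨M * m, n, D, by positivity, d1, d2, ?_⟩
  have h3 := (tm_biUnion (Λ := Λ) (ρ := ρ) S (fun z => {x | ∃ b ∈ pw B M, x = evz b z W}) _ hc'
    (by rintro z - _ ⟨b, hb, rfl⟩; exact Ut3A.evz_mem hb (nz_of_normal _ z) W)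
    fun z _ => hU N A ρ hS _ z hc' (nz_of_normal _ z)).closure
  refine h3.mono fun x hx => ?_
  have h4 := h (itc_mono (pw_mul B M m) le_rfl n hx)
  rw [bot_sup_eq] at h4
  refine Subgroup.closure_mono ?_ h4
  rintro _ ⟨z, hz, b, hb, rfl⟩
  exact Set.mem_iUnion₂.2 ⟨z, hz, b, hb, rfl⟩

theorem sh : SSh := by
  intro G _ hG v
  induction v with
  | zero => exact fun M X D Z Y _ _ _ _ _ hM h1 h2 => ⟨M, hM, fun x hx => h2 (h1 x hx)⟩
  | succ v ih =>
    intro M X D Z Y _ _ _ hY hD hM h1 h2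
    have := map_normal D ⁅Z, D⁆
    obtain ⟨n, n0, hn⟩ := sh1 (G := G ⧸ ⁅Z, D⁆) inferInstance
      (D := D.map (QuotientGroup.mk' ⁅Z, D⁆)) hM _ (map_normal X ⁅Z, D⁆) (Subgroup.map_mono hD) (by
        rintro _ ⟨x, hx, rfl⟩ _ ⟨d, hd, rfl⟩
        rw [← map_pow, ← map_commutatorElement, mk_one]
        exact Subgroup.commutator_mem_commutator (h1 x hx) hd)
    rw [← itc_succ'] at h2 ⊢
    refine ih n ⁅X, D⁆ D ⁅Z, D⁆ Y inferInstance inferInstance inferInstance hY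
      (Subgroup.commutator_le_right X D) n0 (fun x hx => ?_) h2
    rw [← mk_one, map_pow]
    exact hn _ (by rw [← Subgroup.map_commutator]; exact Subgroup.mem_map_of_mem _ hx)

end Pool.Agent.MP_5c28a4_al.H89S.StrA
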